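import Mathlib

/-!
Project LC (helper44, MP_9ecbc4_nt): for two primes `p ≠ q` let `a_1 < a_2 < ...` be the positive integers with
all prime factors in `{p, q}`; then `∑ 1 / lcm(a_1, ..., a_n)` is irrational.  Statements of the pieces.

Idea.  The sum is `A(p,q) A(q,p)` with `A(p,q) = ∑_u p^(-u) q^(-L(u))`, `L(u) = ⌊log_q p^u⌋`, and
`(p-1) A(p,q) + (q-1) A(q,p) = p + q - 1`.  So it is enough that `A(p,q)` satisfies no quadratic equation over `ℚ`;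
this follows from the approximations with denominators `D = p^b q^a - 1`.
-/

set_option autoImplicit false

open Finset

namespace Pool.Agent.K1H44.LC

/-- the `n`-th (from 0) positive integer with all prime factors in `P` -/
noncomputable def an (P : Finset ℕ) (n : ℕ) : ℕ := Nat.nth (fun m : ℕ => 0 < m ∧ m.primeFactors ⊆ P) n

/-- `⌊log_q p^u⌋` -/
def L (p q u : ℕ) : ℕ := Nat.log q (p ^ u)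

/-- `A(p,q)` -/
noncomputable def A (p q : ℕ) : ℝ := ∑' u : ℕ, 1 / ((p : ℝ) ^ u * (q : ℝ) ^ L p q u)

/-- two different primes -/
def Pair (p q : ℕ) : Prop := p.Prime ∧ q.Prime ∧ p ≠ q

def S_LCM : Prop := ∀ p q : ℕ, Pair p q → ∀ n : ℕ,
  (Finset.range (n + 1)).lcm (an {p, q}) = p ^ Nat.log p (an {p, q} n) * q ^ Nat.log q (an {p, q} n)

def S_REIDX : Prop := ∀ p q : ℕ, Pair p q → ∀ f : ℕ → ℝ,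
  ∑' n : ℕ, f (an {p, q} n) = ∑' x : ℕ × ℕ, f (p ^ x.1 * q ^ x.2)

def S_PROD : Prop := ∀ p q : ℕ, Pair p q →
  ∑' x : ℕ × ℕ, (1 : ℝ) / ((p ^ Nat.log p (p ^ x.1 * q ^ x.2) * q ^ Nat.log q (p ^ x.1 * q ^ x.2) : ℕ) : ℝ) =
    A p q * A q p

def S_DUAL : Prop := ∀ p q : ℕ, Pair p q → ((p : ℝ) - 1) * A p q + ((q : ℝ) - 1) * A q p = p + q - 1

def S_TH : Prop := ∀ p q : ℕ, Pair p q →
  ∃ θ : ℝ, 0 < θ ∧ Irrational θ ∧ ∀ u : ℕ, (L p q u : ℤ) = ⌊(u : ℝ) * θ⌋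

def S_FL : Prop := ∀ θ : ℝ, 0 < θ → Irrational θ → ∀ K : ℕ, ∃ (b U : ℕ) (a : ℤ), 1 ≤ b ∧ b + K ≤ U ∧
  ⌊(b : ℝ) * θ⌋ ≤ a ∧
  (∀ u : ℕ, 1 ≤ u → u < U → ⌊((u + b : ℕ) : ℝ) * θ⌋ = ⌊(u : ℝ) * θ⌋ + a) ∧
  ⌊((U + b : ℕ) : ℝ) * θ⌋ ≠ ⌊(U : ℝ) * θ⌋ + a ∧
  ((∀ u : ℕ, ⌊(u : ℝ) * θ⌋ + a ≤ ⌊((u + b : ℕ) : ℝ) * θ⌋ ∧ ⌊((u + b : ℕ) : ℝ) * θ⌋ ≤ ⌊(u : ℝ) * θ⌋ + a + 1) ∨
   (∀ u : ℕ, ⌊((u + b : ℕ) : ℝ) * θ⌋ ≤ ⌊(u : ℝ) * θ⌋ + a ∧ ⌊(u : ℝ) * θ⌋ + a ≤ ⌊((u + b : ℕ) : ℝ) * θ⌋ + 1))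

/-- `S_TH` and `S_FL` together -/
def S_DIO : Prop := ∀ p q : ℕ, Pair p q → ∀ K : ℕ, ∃ b U a : ℕ, 1 ≤ b ∧ b + K ≤ U ∧ L p q b ≤ a ∧
  (∀ u : ℕ, 1 ≤ u → u < U → L p q (u + b) = L p q u + a) ∧ L p q (U + b) ≠ L p q U + a ∧
  ((∀ u : ℕ, L p q u + a ≤ L p q (u + b) ∧ L p q (u + b) ≤ L p q u + a + 1) ∨
   (∀ u : ℕ, L p q (u + b) ≤ L p q u + a ∧ L p q u + a ≤ L p q (u + b) + 1))

/-- the terms of the error -/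
noncomputable def er (p q b a u : ℕ) : ℝ :=
  1 / (p : ℝ) ^ (u + 1) * ((q : ℝ) ^ a / (q : ℝ) ^ L p q (u + 1 + b) - 1 / (q : ℝ) ^ L p q (u + 1))

def S_ID : Prop := ∀ p q : ℕ, Pair p q → ∀ b a : ℕ, 1 ≤ b → L p q b ≤ a →
  Summable (er p q b a) ∧ ∃ N : ℤ, ((p : ℝ) ^ b * (q : ℝ) ^ a - 1) * A p q - N = ∑' u : ℕ, er p q b a u

def S_APP : Prop := S_DIO → S_ID → ∀ p q : ℕ, Pair p q → ∀ ε : ℝ, 0 < ε →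
  ∃ D N : ℤ, 0 < D ∧ (D : ℝ) * A p q - N ≠ 0 ∧ |(D : ℝ) * A p q - N| * D < ε

end Pool.Agent.K1H44.LC
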