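import Pool.Agent.K1H44.LC.Quad
import Pool.Agent.K1H65.LC.Lcm
import Pool.Agent.K1H99.LC.Reidx
import Pool.Agent.K1H74.LC.Prod
import Pool.Agent.K1H24.LC.Dual
import Pool.Agent.K1H89.LC.Th
import Pool.Agent.K1H4.LC.Fl
import Pool.Agent.K1H28.LC.Ident
import Pool.Agent.K1H78.LC.APP

/-! Project LC: irrationality, assembled. -/

set_option autoImplicit false

open Finset

namespace Pool.Agent.K1H44.LC

theorem prod_formula (p q : ℕ) (hpq : Pair p q) :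
    (∑' n : ℕ, (1 : ℝ) / (((Finset.range (n + 1)).lcm (an {p, q}) : ℕ) : ℝ)) = A p q * A q p := by
  rw [← Pool.Agent.K1H74.LC.t_PROD p q hpq,
    ← Pool.Agent.K1H99.LC.t_REIDX p q hpq fun m : ℕ => (1 : ℝ) / ((p ^ Nat.log p m * q ^ Nat.log q m : ℕ) : ℝ)]
  refine tsum_congr fun n => ?_
  rw [Pool.Agent.K1H65.LC.t_LCM p q hpq n]

theorem irr (p q : ℕ) (hpq : Pair p q) :
    Irrational (∑' n : ℕ, (1 : ℝ) / (((Finset.range (n + 1)).lcm (an {p, q}) : ℕ) : ℝ)) :=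
  main Pool.Agent.K1H65.LC.t_LCM Pool.Agent.K1H99.LC.t_REIDX Pool.Agent.K1H74.LC.t_PROD
    Pool.Agent.K1H24.LC.t_DUAL Pool.Agent.K1H89.LC.t_TH Pool.Agent.K1H4.LC.t_FL Pool.Agent.K1H28.LC.t_ID
    Pool.Agent.K1H78.LC.t_APP p q hpq

theorem irrA (p q : ℕ) (hpq : Pair p q) : Irrational (A p q) := by
  have happ := Pool.Agent.K1H78.LC.t_APP (dio Pool.Agent.K1H89.LC.t_TH Pool.Agent.K1H4.LC.t_FL)
    Pool.Agent.K1H28.LC.t_ID p q hpq
  rintro ⟨r, hr⟩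
  have h1 : ((0 : ℤ) : ℝ) * A p q ^ 2 + ((r.den : ℤ) : ℝ) * A p q + ((-r.num : ℤ) : ℝ) = 0 := by
    have h3 : (r : ℝ) * r.den = r.num := by
      have := Rat.mul_den_eq_num r
      exact_mod_cast this
    rw [← hr]
    push_cast
    linarith
  have h2 := (quad happ _ _ _ h1).2
  have h4 : (r.den : ℤ) ≠ 0 := by exact_mod_cast r.den_nz
  exact h4 h2

end Pool.Agent.K1H44.LC
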