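import Pool.Agent.K1H44.LC.Plan

/-!
Project LC, second part: transcendence through Roth's theorem.
-/

set_option autoImplicit false

open Finset

namespace Pool.Agent.K1H44.LC

/-- as `S_FL`, with arbitrarily large `b` and `U ≥ 3 b / 2` -/
def S_FL2 : Prop := ∀ θ : ℝ, 0 < θ → Irrational θ → ∀ B : ℕ, ∃ (b U : ℕ) (a : ℤ), 1 ≤ b ∧ B ≤ b ∧ 3 * b ≤ 2 * U ∧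
  ⌊(b : ℝ) * θ⌋ ≤ a ∧
  (∀ u : ℕ, 1 ≤ u → u < U → ⌊((u + b : ℕ) : ℝ) * θ⌋ = ⌊(u : ℝ) * θ⌋ + a) ∧
  ⌊((U + b : ℕ) : ℝ) * θ⌋ ≠ ⌊(U : ℝ) * θ⌋ + a ∧
  ((∀ u : ℕ, ⌊(u : ℝ) * θ⌋ + a ≤ ⌊((u + b : ℕ) : ℝ) * θ⌋ ∧ ⌊((u + b : ℕ) : ℝ) * θ⌋ ≤ ⌊(u : ℝ) * θ⌋ + a + 1) ∨
   (∀ u : ℕ, ⌊((u + b : ℕ) : ℝ) * θ⌋ ≤ ⌊(u : ℝ) * θ⌋ + a ∧ ⌊(u : ℝ) * θ⌋ + a ≤ ⌊((u + b : ℕ) : ℝ) * θ⌋ + 1))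

def S_DIO2 : Prop := ∀ p q : ℕ, Pair p q → ∀ B : ℕ, ∃ b U a : ℕ, 1 ≤ b ∧ B ≤ b ∧ 3 * b ≤ 2 * U ∧ L p q b ≤ a ∧
  (∀ u : ℕ, 1 ≤ u → u < U → L p q (u + b) = L p q u + a) ∧ L p q (U + b) ≠ L p q U + a ∧
  ((∀ u : ℕ, L p q u + a ≤ L p q (u + b) ∧ L p q (u + b) ≤ L p q u + a + 1) ∨
   (∀ u : ℕ, L p q (u + b) ≤ L p q u + a ∧ L p q u + a ≤ L p q (u + b) + 1))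

def S_APP2 : Prop := S_DIO2 → S_ID → ∀ p q : ℕ, Pair p q → ∀ c : ℝ, 0 < c →
  ∃ (D : ℕ) (N : ℤ), 1 ≤ D ∧ (D : ℝ) ^ (1 + (1 / 4 : ℝ)) * |(D : ℝ) * A p q - N| < c

end Pool.Agent.K1H44.LC
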