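import Pool.Agent.K1H44.LC.Plan

/-! Project LC: numbers with very good approximations satisfy no quadratic equation; the assembly. -/

set_option autoImplicit false

open Finset

namespace Pool.Agent.K1H44.LC

theorem quad {x : ℝ} (h : ∀ ε : ℝ, 0 < ε → ∃ D N : ℤ, 0 < D ∧ (D : ℝ) * x - N ≠ 0 ∧ |(D : ℝ) * x - N| * D < ε)
    (c2 c1 c0 : ℤ) (h0 : (c2 : ℝ) * x ^ 2 + c1 * x + c0 = 0) : c2 = 0 ∧ c1 = 0 := by
  have key : ∀ ε : ℝ, 0 < ε → ε < 1 → ∃ D N : ℤ, 0 < D ∧ (D : ℝ) * x - N ≠ 0 ∧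
      |(D : ℝ) * x - N| * D < ε ∧ (D : ℝ) * (2 * c2 * x + c1) = c2 * ((D : ℝ) * x - N) := by
    intro ε he he1
    set M : ℝ := 2 * |(c2 : ℝ)| * |x| + |(c2 : ℝ)| + |(c1 : ℝ)| + 1 with hM
    have hM1 : 1 ≤ M := by
      have h1 := abs_nonneg (c2 : ℝ)
      have h2 := abs_nonneg (c1 : ℝ)
      have h3 : 0 ≤ 2 * |(c2 : ℝ)| * |x| := by positivity
      linarith
    have hM0 : 0 < M := by linarith
    obtain ⟨D, N, hD, hne, hlt⟩ := h (ε / M) (by positivity)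
    have hD1 : (1 : ℝ) ≤ D := by exact_mod_cast hD
    have hlt2 : |(D : ℝ) * x - N| * D < ε := hlt.trans_le (div_le_self he.le hM1)
    refine ⟨D, N, hD, hne, hlt2, ?_⟩
    set e : ℝ := (D : ℝ) * x - N with hedef
    have hN : (N : ℝ) = D * x - e := by rw [hedef]; ring
    have hae : |e| ≤ 1 := by
      have h1 : |e| * 1 ≤ |e| * D := mul_le_mul_of_nonneg_left hD1 (abs_nonneg e)
      linarith
    have hZ : ((c2 * N ^ 2 + c1 * D * N + c0 * D ^ 2 : ℤ) : ℝ) = -(e * (2 * c2 * D * x - c2 * e + c1 * D)) := by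
      push_cast
      rw [hN]
      have : (c2 : ℝ) * (D * x - e) ^ 2 + c1 * D * (D * x - e) + c0 * D ^ 2 =
        (D : ℝ) ^ 2 * (c2 * x ^ 2 + c1 * x + c0) - e * (2 * c2 * D * x - c2 * e + c1 * D) := by ring
      rw [this, h0]
      ring
    have hZb : |((c2 * N ^ 2 + c1 * D * N + c0 * D ^ 2 : ℤ) : ℝ)| < 1 := by
      rw [hZ, abs_neg, abs_mul]
      have h1 : |2 * c2 * D * x - c2 * e + c1 * D| ≤ D * M := by
        have t1 : |2 * (c2 : ℝ) * D * x| = D * (2 * |(c2 : ℝ)| * |x|) := by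
          rw [abs_mul, abs_mul, abs_mul, abs_of_pos (by linarith : (0 : ℝ) < D)]
          norm_num
          ring
        have t2 : |(c2 : ℝ) * e| ≤ D * |(c2 : ℝ)| := by
          rw [abs_mul, mul_comm]
          exact mul_le_mul_of_nonneg_right (hae.trans hD1) (abs_nonneg _)
        have t3 : |(c1 : ℝ) * D| = D * |(c1 : ℝ)| := by
          rw [abs_mul, abs_of_pos (by linarith : (0 : ℝ) < D), mul_comm]
        have t4 := abs_add_le (2 * (c2 : ℝ) * D * x - c2 * e) (c1 * D)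
        have t5 := abs_sub (2 * (c2 : ℝ) * D * x) (c2 * e)
        have t6 : D * M = D * (2 * |(c2 : ℝ)| * |x|) + D * |(c2 : ℝ)| + D * |(c1 : ℝ)| + D := by
          rw [hM]; ring
        linarith
      calc |e| * |2 * c2 * D * x - c2 * e + c1 * D| ≤ |e| * (D * M) :=
            mul_le_mul_of_nonneg_left h1 (abs_nonneg e)
        _ = (|e| * D) * M := by ring
        _ < (ε / M) * M := mul_lt_mul_of_pos_right hlt hM0
        _ = ε := by field_simp
        _ < 1 := he1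
    have hZ0 : c2 * N ^ 2 + c1 * D * N + c0 * D ^ 2 = 0 := by
      rw [← Int.cast_abs] at hZb
      have : |c2 * N ^ 2 + c1 * D * N + c0 * D ^ 2| < 1 := by exact_mod_cast hZb
      exact Int.abs_lt_one_iff.1 this
    rw [hZ0, Int.cast_zero] at hZ
    have h2 : e * (2 * c2 * D * x - c2 * e + c1 * D) = 0 := by linarith
    have h3 := (mul_eq_zero.1 h2).resolve_left hne
    linarith
  have ht : 2 * (c2 : ℝ) * x + c1 = 0 := by
    by_contra hne
    have hpos : 0 < |2 * (c2 : ℝ) * x + c1| := abs_pos.2 hne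
    set ε : ℝ := min (1 / 2) (|2 * (c2 : ℝ) * x + c1| / (|(c2 : ℝ)| + 1)) with hε
    have hε0 : 0 < ε := by
      rw [hε]
      exact lt_min (by norm_num) (by positivity)
    obtain ⟨D, N, hD, -, hlt, heq⟩ := key ε hε0 ((min_le_left _ _).trans_lt (by norm_num))
    have hD1 : (1 : ℝ) ≤ D := by exact_mod_cast hD
    have h1 : (D : ℝ) * |2 * c2 * x + c1| = |(c2 : ℝ)| * |(D : ℝ) * x - N| := by
      rw [← abs_mul (c2 : ℝ), ← heq, abs_mul, abs_of_pos (by linarith : (0 : ℝ) < D)]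
    have h2 : |2 * (c2 : ℝ) * x + c1| ≤ (D : ℝ) * |2 * c2 * x + c1| := by
      have := mul_le_mul_of_nonneg_right hD1 hpos.le
      linarith
    have h3 : |(D : ℝ) * x - N| ≤ |(D : ℝ) * x - N| * D := le_mul_of_one_le_right (abs_nonneg _) hD1
    have h4 : |(c2 : ℝ)| * |(D : ℝ) * x - N| ≤ |(c2 : ℝ)| * ε :=
      mul_le_mul_of_nonneg_left (h3.trans hlt.le) (abs_nonneg _)
    have h5 : ε ≤ |2 * (c2 : ℝ) * x + c1| / (|(c2 : ℝ)| + 1) := min_le_right _ _
    have h6 : ε * (|(c2 : ℝ)| + 1) ≤ |2 * (c2 : ℝ) * x + c1| := (le_div_iff₀ (by positivity)).1 h5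
    nlinarith
  obtain ⟨D, N, hD, hne, -, heq⟩ := key (1 / 2) (by norm_num) (by norm_num)
  rw [ht, mul_zero] at heq
  have h1 : (c2 : ℝ) = 0 := (mul_eq_zero.1 heq.symm).resolve_right hne
  have h2 : (c1 : ℝ) = 0 := by rw [h1] at ht; linarith
  exact ⟨by exact_mod_cast h1, by exact_mod_cast h2⟩

/-- `S_TH` and `S_FL` give `S_DIO` -/
theorem dio (hT : S_TH) (hF : S_FL) : S_DIO := by
  intro p q hpq K
  obtain ⟨θ, hθ, hirr, hfl⟩ := hT p q hpq
  obtain ⟨b, U, a, h1, h2, h3, h4, h5, h6⟩ := hF θ hθ hirr K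
  have ha : 0 ≤ a := by
    refine le_trans ?_ h3
    exact Int.floor_nonneg.2 (by positivity)
  lift a to ℕ using ha
  simp only [← hfl] at h3 h4 h5 h6
  refine ⟨b, U, a, h1, h2, ?_, fun u hu hu' => ?_, ?_, ?_⟩
  · exact_mod_cast h3
  · exact_mod_cast h4 u hu hu'
  · exact_mod_cast h5
  · rcases h6 with h6 | h6
    · exact Or.inl fun u => ⟨by exact_mod_cast (h6 u).1, by exact_mod_cast (h6 u).2⟩
    · exact Or.inr fun u => ⟨by exact_mod_cast (h6 u).1, by exact_mod_cast (h6 u).2⟩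

/-- the theorem from the pieces -/
theorem main (hL : S_LCM) (hR : S_REIDX) (hP : S_PROD) (hD : S_DUAL) (hT : S_TH) (hF : S_FL) (hI : S_ID)
    (hA : S_APP) (p q : ℕ) (hpq : Pair p q) :
    Irrational (∑' n : ℕ, (1 : ℝ) / (((Finset.range (n + 1)).lcm (an {p, q}) : ℕ) : ℝ)) := by
  have e1 : (∑' n : ℕ, (1 : ℝ) / (((Finset.range (n + 1)).lcm (an {p, q}) : ℕ) : ℝ)) = A p q * A q p := by
    rw [← hP p q hpq, ← hR p q hpq fun m : ℕ => (1 : ℝ) / ((p ^ Nat.log p m * q ^ Nat.log q m : ℕ) : ℝ)]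
    refine tsum_congr fun n => ?_
    rw [hL p q hpq n]
  rw [e1]
  have happ := hA (dio hT hF) hI p q hpq
  have hdual := hD p q hpq
  have hp : 2 ≤ p := hpq.1.two_le
  have hq : 2 ≤ q := hpq.2.1.two_le
  rintro ⟨r, hr⟩
  have hp' : (2 : ℝ) ≤ p := by exact_mod_cast hp
  have hq' : (2 : ℝ) ≤ q := by exact_mod_cast hq
  -- `(p - 1) A² - (p + q - 1) A + (q - 1) r = 0`
  have h1 : ((p : ℝ) - 1) * A p q ^ 2 - (p + q - 1) * A p q + (q - 1) * r = 0 := by
    rw [hr]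
    have : ((q : ℝ) - 1) * A q p = p + q - 1 - (p - 1) * A p q := by linarith
    calc ((p : ℝ) - 1) * A p q ^ 2 - (p + q - 1) * A p q + (q - 1) * (A p q * A q p)
        = ((p : ℝ) - 1) * A p q ^ 2 - (p + q - 1) * A p q + A p q * ((q - 1) * A q p) := by ring
      _ = 0 := by rw [this]; ring
  have h2 : ((((p : ℤ) - 1) * r.den : ℤ) : ℝ) * A p q ^ 2 + ((-((p : ℤ) + q - 1) * r.den : ℤ) : ℝ) * A p q +
      ((((q : ℤ) - 1) * r.num : ℤ) : ℝ) = 0 := by
    have hd : (r.den : ℝ) ≠ 0 := by exact_mod_cast r.den_nz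
    have h3 : (r : ℝ) * r.den = r.num := by
      have := Rat.mul_den_eq_num r
      exact_mod_cast this
    push_cast
    rw [← h3]
    calc _ = (((p : ℝ) - 1) * A p q ^ 2 - (p + q - 1) * A p q + (q - 1) * r) * r.den := by ring
      _ = 0 := by rw [h1, zero_mul]
  have h3 := (quad happ _ _ _ h2).1
  have h4 : (r.den : ℤ) ≠ 0 := by exact_mod_cast r.den_nz
  have h5 : (p : ℤ) - 1 ≠ 0 := by omega
  exact (mul_ne_zero h5 h4) h3

end Pool.Agent.K1H44.LC
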