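import Pool.Agent.K1H44.LC.Irr
import Pool.Agent.K1H44.LC.Plan2
import Pool.Agent.W472.AC.RothThm

/-! Project LC: transcendence. -/

set_option autoImplicit false

open Finset

namespace Pool.Agent.K1H44.LC

/-- `S_TH` and `S_FL2` give `S_DIO2` -/
theorem dio2 (hT : S_TH) (hF : S_FL2) : S_DIO2 := by
  intro p q hpq K
  obtain ⟨θ, hθ, hirr, hfl⟩ := hT p q hpq
  obtain ⟨b, U, a, h1, h1', h2, h3, h4, h5, h6⟩ := hF θ hθ hirr K
  have ha : 0 ≤ a := by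
    refine le_trans ?_ h3
    exact Int.floor_nonneg.2 (by positivity)
  lift a to ℕ using ha
  simp only [← hfl] at h3 h4 h5 h6
  refine ⟨b, U, a, h1, h1', h2, ?_, fun u hu hu' => ?_, ?_, ?_⟩
  · exact_mod_cast h3
  · exact_mod_cast h4 u hu hu'
  · exact_mod_cast h5
  · rcases h6 with h6 | h6
    · exact Or.inl fun u => ⟨by exact_mod_cast (h6 u).1, by exact_mod_cast (h6 u).2⟩
    · exact Or.inr fun u => ⟨by exact_mod_cast (h6 u).1, by exact_mod_cast (h6 u).2⟩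

theorem transA (hF : S_FL2) (hA : S_APP2) (p q : ℕ) (hpq : Pair p q) : Transcendental ℚ (A p q) := by
  intro halg
  obtain ⟨c, hc, h⟩ := Pool.Agent.W472.AC.roth (A p q) halg (irrA p q hpq) (1 / 4) (by norm_num)
  obtain ⟨D, N, hD, hlt⟩ := hA (dio2 Pool.Agent.K1H89.LC.t_TH hF) Pool.Agent.K1H28.LC.t_ID p q hpq c hc
  exact absurd (h D hD N) (not_le.2 hlt)

theorem trans (hF : S_FL2) (hA : S_APP2) (p q : ℕ) (hpq : Pair p q) :
    Transcendental ℚ (∑' n : ℕ, (1 : ℝ) / (((Finset.range (n + 1)).lcm (an {p, q}) : ℕ) : ℝ)) := by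
  rw [prod_formula p q hpq]
  intro halg
  have hdual := Pool.Agent.K1H24.LC.t_DUAL p q hpq
  have hp : 2 ≤ p := hpq.1.two_le
  have hp' : (2 : ℝ) ≤ p := by exact_mod_cast hp
  have hn : ∀ n : ℕ, IsAlgebraic ℚ (n : ℝ) := fun n => isAlgebraic_natCast n
  have h1 : IsAlgebraic ℚ (((p : ℝ) + q - ((1 : ℕ) : ℝ)) ^ 2 -
      ((4 : ℕ) : ℝ) * ((p : ℝ) - ((1 : ℕ) : ℝ)) * ((q : ℝ) - ((1 : ℕ) : ℝ)) * (A p q * A q p)) := by
    refine IsAlgebraic.sub ?_ ?_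
    · exact (((hn p).add (hn q)).sub (hn 1)).pow 2
    · exact (((hn 4).mul ((hn p).sub (hn 1))).mul ((hn q).sub (hn 1))).mul halg
  have h2 : ((p : ℝ) + q - ((1 : ℕ) : ℝ)) ^ 2 -
      ((4 : ℕ) : ℝ) * ((p : ℝ) - ((1 : ℕ) : ℝ)) * ((q : ℝ) - ((1 : ℕ) : ℝ)) * (A p q * A q p) =
      (2 * (((p : ℝ) - 1) * A p q) - (p + q - 1)) ^ 2 := by
    have e : ((q : ℝ) - 1) * A q p = p + q - 1 - (p - 1) * A p q := by linarith
    have e2 : ((4 : ℕ) : ℝ) * ((p : ℝ) - ((1 : ℕ) : ℝ)) * ((q : ℝ) - ((1 : ℕ) : ℝ)) * (A p q * A q p) =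
        4 * ((p - 1) * A p q) * ((q - 1) * A q p) := by push_cast; ring
    rw [e2, e]
    push_cast
    ring
  rw [h2] at h1
  have h3 : IsAlgebraic ℚ (2 * (((p : ℝ) - 1) * A p q) - (p + q - 1)) := IsAlgebraic.of_pow (by norm_num) h1
  have h4 : A p q = ((2 * (((p : ℝ) - 1) * A p q) - (p + q - 1)) + (p + q - ((1 : ℕ) : ℝ))) *
      (((2 : ℕ) : ℝ) * (p - ((1 : ℕ) : ℝ)))⁻¹ := by
    have : (p : ℝ) - 1 ≠ 0 := by linarith
    push_cast
    field_simp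
    ring
  refine transA hF hA p q hpq ?_
  rw [h4]
  exact (h3.add (((hn p).add (hn q)).sub (hn 1))).mul (((hn 2).mul ((hn p).sub (hn 1))).inv)

end Pool.Agent.K1H44.LC
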